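import Pool.Agent.R270.WeakNhd
import Pool.Agent.R270.Slices

/-!
# Every ccs Delta-point is a super Delta-point
-/

namespace Pool.Agent.Results.MP_c89e4d_an.CcsSuper

open Set Filter Topology

/-- `S` is a slice of the closed unit ball of `X`: `S = {z ∈ B_X : Re f(z) > 1 - α}` with
`‖f‖ = 1` and `α > 0`. -/
def IsSlice (𝕜 : Type*) {X : Type*} [RCLike 𝕜] [NormedAddCommGroup X] [NormedSpace 𝕜 X]
    (S : Set X) : Prop :=
  ∃ (f : StrongDual 𝕜 X) (α : ℝ), ‖f‖ = 1 ∧ 0 < α ∧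
    S = {z : X | ‖z‖ ≤ 1 ∧ 1 - α < RCLike.re (f z)}

/-- `C` is a convex combination of slices of the closed unit ball of `X`. -/
def IsCcs (𝕜 : Type*) {X : Type*} [RCLike 𝕜] [NormedAddCommGroup X] [NormedSpace 𝕜 X]
    (C : Set X) : Prop :=
  ∃ (n : ℕ) (lam : Fin n → ℝ) (S : Fin n → Set X), 1 ≤ n ∧ (∀ i, IsSlice 𝕜 (S i)) ∧
    (∀ i, 0 < lam i) ∧ ∑ i, lam i = 1 ∧
    C = {z | ∃ y : Fin n → X, (∀ i, y i ∈ S i) ∧ z = ∑ i, (lam i : 𝕜) • y i}

/-- `x` is a ccs Delta-point of `X`. -/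
def IsCcsDeltaPoint (𝕜 : Type*) {X : Type*} [RCLike 𝕜] [NormedAddCommGroup X] [NormedSpace 𝕜 X]
    (x : X) : Prop :=
  ‖x‖ = 1 ∧ ∀ C : Set X, IsCcs 𝕜 C → x ∈ C → sSup ((fun y => ‖x - y‖) '' C) = 2

/-- `x` is a super Delta-point of `X`: `‖x‖ = 1` and `sup_{y ∈ W} ‖x - y‖ = 2` for every relatively
weakly open subset `W` of the closed unit ball which contains `x`. -/
def IsSuperDeltaPoint (𝕜 : Type*) {X : Type*} [RCLike 𝕜] [NormedAddCommGroup X] [NormedSpace 𝕜 X]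
    (x : X) : Prop :=
  ‖x‖ = 1 ∧ ∀ W : Set X,
    (∃ O : Set (WeakSpace 𝕜 X), IsOpen O ∧ W = Metric.closedBall 0 1 ∩ toWeakSpace 𝕜 X ⁻¹' O) →
    x ∈ W → sSup ((fun y => ‖x - y‖) '' W) = 2

section finite

variable {𝕜 : Type*} [RCLike 𝕜] {ι : Type*} [Fintype ι]

lemma opNorm_bound (u : StrongDual 𝕜 (ι → 𝕜)) (p : ι → 𝕜) (ε s : ℝ) (hε : 0 < ε)
    (hs : ∀ a ∈ Metric.ball p ε, RCLike.re (u a) < s) :
    RCLike.re (u p) + ε / 2 * ‖u‖ ≤ s := by
  have hp : RCLike.re (u p) < s := hs p (Metric.mem_ball_self hε)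
  have h1 : ‖u‖ ≤ (s - RCLike.re (u p)) / (ε / 2) := by
    refine u.opNorm_le_bound (div_nonneg (by linarith) (by linarith)) fun x => ?_
    by_cases hx : x = 0
    · simp [hx]
    have hxn : 0 < ‖x‖ := norm_pos_iff.2 hx
    obtain ⟨θ, hθ, hθ2⟩ := RCLike.exists_norm_eq_mul_self (u x)
    set t : ℝ := ε / 2 / ‖x‖ with ht
    have htpos : 0 < t := by positivity
    have htx : t * ‖x‖ = ε / 2 := by rw [ht]; field_simp
    have hmem : p + ((t : 𝕜) * θ) • x ∈ Metric.ball p ε := by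
      rw [mem_ball_iff_norm, add_sub_cancel_left, norm_smul, norm_mul, hθ, mul_one,
        RCLike.norm_ofReal, abs_of_pos htpos, htx]
      linarith
    have h2 := hs _ hmem
    rw [map_add, map_smul, smul_eq_mul, mul_assoc, ← hθ2, map_add, ← RCLike.ofReal_mul,
      RCLike.ofReal_re] at h2
    rw [div_mul_eq_mul_div, le_div_iff₀ (by linarith)]
    have h3 : t * ‖u x‖ < s - RCLike.re (u p) := by linarith
    have h4 : t * ‖u x‖ * ‖x‖ ≤ (s - RCLike.re (u p)) * ‖x‖ := by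
      exact mul_le_mul_of_nonneg_right h3.le hxn.le
    calc ‖u x‖ * (ε / 2) = t * ‖u x‖ * ‖x‖ := by rw [← htx]; ring
      _ ≤ _ := h4
  rw [le_div_iff₀ (by linarith)] at h1
  linarith

lemma exists_net (R ε : ℝ) (hR : 0 < R) (hε : 0 < ε) :
    ∃ (N : ℕ) (c : Fin N → StrongDual 𝕜 (ι → 𝕜)), 1 ≤ N ∧
      ∀ (p : ι → 𝕜) (v : Fin N → (ι → 𝕜)), (∀ i, ‖v i - p‖ ≤ R) →
        (∀ i, -(ε / 4) < RCLike.re (c i (v i - p))) →
        ∃ w : Fin N → ℝ, (∀ i, 0 ≤ w i) ∧ ∑ i, w i = 1 ∧ ‖∑ i, w i • v i - p‖ < ε := by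
  classical
  have : ProperSpace (StrongDual 𝕜 (ι → 𝕜)) := FiniteDimensional.proper_rclike 𝕜 _
  have hcomp : IsCompact (Metric.closedBall (0 : StrongDual 𝕜 (ι → 𝕜)) 1) :=
    isCompact_closedBall 0 1
  obtain ⟨t, htf, ht⟩ := Metric.totallyBounded_iff.1 hcomp.totallyBounded (ε / (4 * R))
    (by positivity)
  lift t to Finset (StrongDual 𝕜 (ι → 𝕜)) using htf
  have htne : t.Nonempty := by
    have := ht (Metric.mem_closedBall_self zero_le_one)
    simp only [mem_iUnion] at this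
    obtain ⟨y, hy, -⟩ := this
    exact ⟨y, hy⟩
  refine ⟨t.card, fun i => (t.equivFin.symm i : StrongDual 𝕜 (ι → 𝕜)), Finset.card_pos.2 htne, ?_⟩
  intro p v hv hc
  by_contra hcon
  push Not at hcon
  -- the convex hull of the `v i`
  set L : (Fin t.card → ℝ) →ₗ[ℝ] (ι → 𝕜) := Fintype.linearCombination ℝ v with hL
  set K : Set (ι → 𝕜) := L '' stdSimplex ℝ (Fin t.card) with hK
  have hKconv : Convex ℝ K := (convex_stdSimplex ℝ _).linear_image L
  have hdisj : Disjoint (Metric.ball p ε) K := by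
    rw [Set.disjoint_left]
    rintro a ha ⟨w, hw, rfl⟩
    have h1 := hcon w hw.1 hw.2
    rw [mem_ball_iff_norm, hL, Fintype.linearCombination_apply] at ha
    linarith
  obtain ⟨u, s, hu1, hu2⟩ := RCLike.geometric_hahn_banach_open (𝕜 := 𝕜) (convex_ball p ε)
    Metric.isOpen_ball hKconv hdisj
  have hvK : ∀ i, v i ∈ K := by
    intro i
    refine ⟨Pi.single i 1, single_mem_stdSimplex ℝ i, ?_⟩
    rw [hL, Fintype.linearCombination_apply]
    rw [Finset.sum_eq_single i]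
    · simp
    · intro j _ hj; simp [Pi.single_eq_of_ne hj]
    · intro h; exact absurd (Finset.mem_univ i) h
  have hb := opNorm_bound u p ε s hε hu1
  have hupos : 0 < ‖u‖ := by
    rw [norm_pos_iff]
    rintro rfl
    have h1 := hu1 p (Metric.mem_ball_self hε)
    have h2 := hu2 _ (hvK ⟨0, Finset.card_pos.2 htne⟩)
    simp at h1 h2
    linarith
  set u' : StrongDual 𝕜 (ι → 𝕜) := -(((‖u‖⁻¹ : ℝ) : 𝕜) • u) with hu'
  have hu'1 : ‖u'‖ = 1 := by
    rw [hu', norm_neg, norm_smul, RCLike.norm_ofReal, abs_of_pos (inv_pos.2 hupos)]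
    exact inv_mul_cancel₀ hupos.ne'
  have hmem : u' ∈ Metric.closedBall (0 : StrongDual 𝕜 (ι → 𝕜)) 1 := by
    rw [mem_closedBall_zero_iff]; exact hu'1.le
  have := ht hmem
  simp only [mem_iUnion] at this
  obtain ⟨y, hyt, hy⟩ := this
  have hyt' : y ∈ t := hyt
  set i := t.equivFin ⟨y, hyt'⟩ with hi
  have hci : ((t.equivFin.symm i : t) : StrongDual 𝕜 (ι → 𝕜)) = y := by
    rw [hi, Equiv.symm_apply_apply]
  have h1 := hc i
  simp only [hci] at h1
  have h2 : RCLike.re (u' (v i - p)) ≤ -(ε / 2) := by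
    have h3 := hu2 _ (hvK i)
    have h4 : ε / 2 * ‖u‖ ≤ RCLike.re (u (v i - p)) := by
      rw [map_sub, map_sub]; linarith
    rw [hu', neg_apply, smul_apply, smul_eq_mul, map_neg, RCLike.re_ofReal_mul]
    have h5 : ε / 2 ≤ ‖u‖⁻¹ * RCLike.re (u (v i - p)) := by
      rw [inv_mul_eq_div, le_div_iff₀ hupos]
      exact h4
    linarith
  have h3 : ‖(y - u') (v i - p)‖ ≤ ε / 4 := by
    calc ‖(y - u') (v i - p)‖ ≤ ‖y - u'‖ * ‖v i - p‖ := (y - u').le_opNorm _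
      _ ≤ ε / (4 * R) * R := by
          gcongr
          · rw [mem_ball_iff_norm, norm_sub_rev] at hy; exact hy.le
          · exact hv i
      _ = ε / 4 := by field_simp
  have h4 : RCLike.re ((y - u') (v i - p)) ≤ ε / 4 := (RCLike.re_le_norm _).trans h3
  rw [sub_apply, map_sub] at h4
  linarith

end finite

/-- **Answer to Q1 (positive).** In every real or complex normed space (in particular in every
Banach space), every ccs Delta-point is a super Delta-point. -/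
theorem result (𝕜 : Type*) [RCLike 𝕜] (X : Type*) [NormedAddCommGroup X] [NormedSpace 𝕜 X]
    (x : X) (hx : IsCcsDeltaPoint 𝕜 x) : IsSuperDeltaPoint 𝕜 x := by
  classical
  obtain ⟨hx1, hccs⟩ := hx
  refine ⟨hx1, ?_⟩
  rintro W ⟨O, hO, rfl⟩ ⟨hxB, hxO⟩
  obtain ⟨s, ε, hε, hs⟩ := R270.WeakNhd.exists_basic O hO x hxO
  have hbdd : ∀ d ∈ ((fun y => ‖x - y‖) '' (Metric.closedBall 0 1 ∩ toWeakSpace 𝕜 X ⁻¹' O)),
      d ≤ 2 := by
    rintro d ⟨z, ⟨hz, -⟩, rfl⟩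
    have hz1 : ‖z‖ ≤ 1 := by simpa using hz
    calc ‖x - z‖ ≤ ‖x‖ + ‖z‖ := norm_sub_le _ _
      _ ≤ 1 + 1 := add_le_add hx1.le hz1
      _ = 2 := by norm_num
  refine le_antisymm (csSup_le ⟨_, ⟨x, ⟨hxB, hxO⟩, rfl⟩⟩ hbdd) ?_
  -- the finite-dimensional map
  let T : X →L[𝕜] (s → 𝕜) := ContinuousLinearMap.pi fun f => f.1
  obtain ⟨N, c, hN, hc⟩ := exists_net (𝕜 := 𝕜) (ι := s) (2 * ‖T‖ + 1) ε (by positivity) hε
  -- the slices
  let S : Fin N → Set X := fun i =>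
    {z : X | ‖z‖ ≤ 1 ∧ RCLike.re (c i (T x)) - ε / 4 < RCLike.re ((c i).comp T z)}
  have hxS : ∀ i, x ∈ S i := by
    intro i
    refine ⟨hx1.le, ?_⟩
    simp only [ContinuousLinearMap.comp_apply]
    linarith
  have hNpos : (0 : ℝ) < N := by exact_mod_cast hN
  have hC : IsCcs 𝕜 {z : X | ∃ y : Fin N → X, (∀ i, y i ∈ S i) ∧
      z = ∑ i, ((1 / (N : ℝ) : ℝ) : 𝕜) • y i} := by
    refine ⟨N, fun _ => 1 / (N : ℝ), S, hN, fun i => ?_, fun _ => by positivity, ?_, rfl⟩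
    · exact R270.Slices.exists_slice_rep _ _ x (hxS i).1 (hxS i).2 x hx1
    · rw [Finset.sum_const, Finset.card_univ, Fintype.card_fin, nsmul_eq_mul]
      field_simp
  have hxC : x ∈ {z : X | ∃ y : Fin N → X, (∀ i, y i ∈ S i) ∧
      z = ∑ i, ((1 / (N : ℝ) : ℝ) : 𝕜) • y i} := by
    refine ⟨fun _ => x, hxS, ?_⟩
    rw [Finset.sum_const, Finset.card_univ, Fintype.card_fin, ← Nat.cast_smul_eq_nsmul 𝕜,
      smul_smul, RCLike.ofReal_div, RCLike.ofReal_one, RCLike.ofReal_natCast,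
      mul_one_div_cancel (by exact_mod_cast hNpos.ne'), one_smul]
  have h2 := hccs _ hC hxC
  -- it is enough to find points at distance at least `2 - 2 η`
  refine le_of_forall_pos_le_add fun η' hη' => ?_
  set η : ℝ := η' / 2 with hη
  have hηpos : 0 < η := by positivity
  have hηN : 0 < η / N := by positivity
  have hηN' : η / N ≤ η := div_le_self hηpos.le (by exact_mod_cast hN)
  obtain ⟨d, ⟨y, ⟨yy, hyy, rfl⟩, rfl⟩, hd⟩ := exists_lt_of_lt_csSup
    (⟨_, ⟨x, hxC, rfl⟩⟩ : ((fun y => ‖x - y‖) '' {z : X | ∃ y : Fin N → X, (∀ i, y i ∈ S i) ∧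
      z = ∑ i, ((1 / (N : ℝ) : ℝ) : 𝕜) • y i}).Nonempty)
    (show 2 - η / N < sSup _ by rw [h2]; linarith)
  simp only at hd
  obtain ⟨g, hg1, hg2⟩ := exists_dual_vector'' 𝕜
    (x - ∑ i, ((1 / (N : ℝ) : ℝ) : 𝕜) • yy i)
  have hgre : ∀ z : X, ‖z‖ ≤ 1 → |RCLike.re (g z)| ≤ 1 := by
    intro z hz
    calc |RCLike.re (g z)| ≤ ‖g z‖ := RCLike.abs_re_le_norm _
      _ ≤ ‖g‖ * ‖z‖ := g.le_opNorm z
      _ ≤ 1 * 1 := by gcongr
      _ = 1 := one_mul 1
  have hg3 : RCLike.re (g x) - ∑ i, (1 / (N : ℝ)) * RCLike.re (g (yy i)) =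
      ‖x - ∑ i, ((1 / (N : ℝ) : ℝ) : 𝕜) • yy i‖ := by
    have h3 := congrArg RCLike.re hg2
    rw [RCLike.ofReal_re, map_sub, map_sub, map_sum, map_sum] at h3
    rw [← h3]
    congr 1
    refine Finset.sum_congr rfl fun i _ => ?_
    rw [map_smul, smul_eq_mul, RCLike.re_ofReal_mul]
  have hsum : ∑ i, (1 / (N : ℝ)) * (1 + RCLike.re (g (yy i))) < η / N := by
    have h3 : ∑ i : Fin N, (1 / (N : ℝ)) = 1 := by
      rw [Finset.sum_const, Finset.card_univ, Fintype.card_fin, nsmul_eq_mul]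
      field_simp
    simp only [mul_add, mul_one, Finset.sum_add_distrib, h3]
    have h4 := (abs_le.1 (hgre x hx1.le)).2
    linarith
  have hyre : ∀ i, RCLike.re (g (yy i)) ≤ -1 + η := by
    intro i
    have h3 : ∀ j, 0 ≤ (1 / (N : ℝ)) * (1 + RCLike.re (g (yy j))) := by
      intro j
      have := (abs_le.1 (hgre (yy j) (hyy j).1)).1
      apply mul_nonneg (by positivity)
      linarith
    have h4 := Finset.single_le_sum (f := fun j => (1 / (N : ℝ)) * (1 + RCLike.re (g (yy j))))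
      (fun j _ => h3 j) (Finset.mem_univ i)
    have h5 : (1 / (N : ℝ)) * (1 + RCLike.re (g (yy i))) < η / N := lt_of_le_of_lt h4 hsum
    rw [one_div, inv_mul_eq_div, div_lt_div_iff_of_pos_right hNpos] at h5
    linarith
  have hxre : 1 - η ≤ RCLike.re (g x) := by
    have h3 : -1 ≤ ∑ i, (1 / (N : ℝ)) * RCLike.re (g (yy i)) := by
      have h4 : ∑ i : Fin N, (1 / (N : ℝ)) * (-1) ≤ ∑ i, (1 / (N : ℝ)) * RCLike.re (g (yy i)) := by
        refine Finset.sum_le_sum fun i _ => ?_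
        exact mul_le_mul_of_nonneg_left (abs_le.1 (hgre (yy i) (hyy i).1)).1 (by positivity)
      rw [← Finset.sum_mul, Finset.sum_const, Finset.card_univ, Fintype.card_fin, nsmul_eq_mul,
        mul_one_div_cancel hNpos.ne'] at h4
      linarith
    linarith
  -- the point of the convex hull
  obtain ⟨w, hw0, hw1, hw⟩ := hc (T x) (fun i => T (yy i)) (fun i => by
    calc ‖T (yy i) - T x‖ ≤ ‖T (yy i)‖ + ‖T x‖ := norm_sub_le _ _
      _ ≤ ‖T‖ * 1 + ‖T‖ * 1 := by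
          refine add_le_add ?_ ?_
          · exact (T.le_opNorm _).trans (by gcongr; exact (hyy i).1)
          · exact (T.le_opNorm _).trans (by gcongr; exact hx1.le)
      _ ≤ 2 * ‖T‖ + 1 := by linarith) (fun i => by
    have := (hyy i).2
    simp only [ContinuousLinearMap.comp_apply] at this
    rw [map_sub, map_sub]
    linarith)
  set z : X := ∑ i, ((w i : ℝ) : 𝕜) • yy i with hz
  have hTz : T z = ∑ i, w i • T (yy i) := by
    rw [hz, map_sum]
    refine Finset.sum_congr rfl fun i _ => ?_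
    rw [map_smul]
    ext f
    simp [RCLike.real_smul_eq_coe_mul]
  have hzn : ‖z‖ ≤ 1 := by
    calc ‖z‖ ≤ ∑ i, ‖((w i : ℝ) : 𝕜) • yy i‖ := norm_sum_le _ _
      _ ≤ ∑ i, w i := by
          refine Finset.sum_le_sum fun i _ => ?_
          rw [norm_smul, RCLike.norm_ofReal, abs_of_nonneg (hw0 i)]
          exact mul_le_of_le_one_right (hw0 i) (hyy i).1
      _ = 1 := hw1
  have hzO : toWeakSpace 𝕜 X z ∈ O := by
    refine hs z fun f hf => ?_
    rw [← hTz, ← map_sub] at hw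
    have := (pi_norm_lt_iff hε).1 hw ⟨f, hf⟩
    simpa [T] using this
  have hzre : RCLike.re (g z) ≤ -1 + η := by
    rw [hz, map_sum, map_sum]
    calc ∑ i, RCLike.re (g (((w i : ℝ) : 𝕜) • yy i)) = ∑ i, w i * RCLike.re (g (yy i)) := by
          refine Finset.sum_congr rfl fun i _ => ?_
          rw [map_smul, smul_eq_mul, RCLike.re_ofReal_mul]
      _ ≤ ∑ i, w i * (-1 + η) :=
          Finset.sum_le_sum fun i _ => mul_le_mul_of_nonneg_left (hyre i) (hw0 i)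
      _ = -1 + η := by rw [← Finset.sum_mul, hw1, one_mul]
  have hfinal : 2 - η' ≤ ‖x - z‖ := by
    calc 2 - η' ≤ RCLike.re (g x) - RCLike.re (g z) := by linarith
      _ = RCLike.re (g (x - z)) := by rw [map_sub, map_sub]
      _ ≤ ‖g (x - z)‖ := RCLike.re_le_norm _
      _ ≤ ‖g‖ * ‖x - z‖ := g.le_opNorm _
      _ ≤ 1 * ‖x - z‖ := by gcongr
      _ = ‖x - z‖ := one_mul _
  have := le_csSup ⟨2, hbdd⟩ (⟨z, ⟨by simpa using hzn, hzO⟩, rfl⟩ :
    ‖x - z‖ ∈ ((fun y => ‖x - y‖) '' (Metric.closedBall 0 1 ∩ toWeakSpace 𝕜 X ⁻¹' O)))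
  linarith

end Pool.Agent.Results.MP_c89e4d_an.CcsSuper
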